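import Pool.Agent.H36.NAA.Npi
import Pool.Agent.H80.NA.Mtv
import Pool.Agent.H80.NA.Mvx
import Pool.Agent.H80.NA.Kfd
import Pool.Agent.H80.HM.Fin
import Pool.Agent.H80.HM.Fau

set_option autoImplicit false

/-!
# MP_b319aa_NA, A part: the assembly of frozen statement S02763

Pool/Agent/S02763.lean (from Pool/Templates/S02763.lean.txt, import Pool.Agent.H36.NAA.Asm) has the proof
  intro n d hn ρ hρ hvu
  exact H80HM.toU_solv ρ (H36NA.main hn ((H80HM.toU d).comp ρ) (H80HM.toU_chr ρ hρ) hvu)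
(checked; it only waits for H50NA.na3 in Pool/Agent/H80/NA/Na3.lean).
-/

namespace H36NA

open H50NA H80HM H80NA Matrix

/-- virtually unipotent matrices have eigenvalues of absolute value 1 for every multiplicative function -/
theorem mv_vu {nu : ℂ → ℝ} (hn : Mf nu) {d : ℕ} {M : Mt d} {k : ℕ} (hk : 1 ≤ k)
    (h : IsNilpotent (M ^ k - 1)) : Mv nu M := by
  intro z hz
  have hz1 : z ∈ spectrum ℂ M := by
    rw [Matrix.mem_spectrum_iff_isRoot_charpoly]
    exact Polynomial.isRoot_of_mem_roots hz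
  rw [← Matrix.spectrum_toLin', ← Module.End.hasEigenvalue_iff_mem_spectrum] at hz1
  obtain ⟨X, hX⟩ := hz1.exists_hasEigenvector
  have hX1 : M *ᵥ X = z • X := by
    have := hX.apply_eq_smul
    rwa [Matrix.toLin'_apply] at this
  have hX0 : X ≠ 0 := hX.2
  have h1 : ∀ j : ℕ, (M ^ j) *ᵥ X = z ^ j • X := by
    intro j
    induction j with
    | zero => rw [pow_zero, pow_zero, Matrix.one_mulVec, one_smul]
    | succ j ih =>
      rw [pow_succ, ← Matrix.mulVec_mulVec, hX1, Matrix.mulVec_smul, ih, smul_smul, pow_succ,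
        mul_comm]
  have h2 : ∀ j : ℕ, ((M ^ k - 1) ^ j) *ᵥ X = (z ^ k - 1) ^ j • X := by
    intro j
    induction j with
    | zero => rw [pow_zero, pow_zero, Matrix.one_mulVec, one_smul]
    | succ j ih =>
      rw [pow_succ, ← Matrix.mulVec_mulVec, Matrix.sub_mulVec, Matrix.one_mulVec, h1,
        show z ^ k • X - X = (z ^ k - 1) • X by rw [sub_smul, one_smul], Matrix.mulVec_smul, ih,
        smul_smul, pow_succ, mul_comm]
  obtain ⟨j, hj⟩ := h
  have h3 := h2 j
  rw [hj, Matrix.zero_mulVec] at h3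
  have h4 : (z ^ k - 1) ^ j = 0 := by
    rcases smul_eq_zero.1 h3.symm with h5 | h5
    · exact h5
    · exact absurd h5 hX0
  have hj0 : j ≠ 0 := by
    intro h6
    rw [h6, pow_zero] at h4
    exact one_ne_zero h4
  have h5 : z ^ k = 1 := sub_eq_zero.1 ((pow_eq_zero_iff hj0).1 h4)
  have hz0 : z ≠ 0 := by
    intro h0
    rw [h0, zero_pow (by omega)] at h5
    exact zero_ne_one h5
  have h6 : nu z ^ k = 1 := by
    have h7 : ∀ j : ℕ, nu (z ^ j) = nu z ^ j := by
      intro j
      induction j with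
      | zero => rw [pow_zero, pow_zero, hn.one]
      | succ j ih => rw [pow_succ, pow_succ, hn.mul, ih]
    rw [← h7, h5, hn.one]
  exact (pow_eq_one_iff_of_nonneg (hn.pos z hz0).le (by omega)).1 h6

/-- eigenvalues of characteristic representations with virtually unipotent generators are integral -/
theorem eig_int {n d : ℕ} (hn : 3 ≤ n) (rho : FreeGroup (Fin n) →* (Mt d)ˣ) (hchr : Chr rho)
    (hvu : ∀ i, ∃ k : ℕ, 1 ≤ k ∧
      IsNilpotent (((rho (FreeGroup.of i) : (Mt d)ˣ) : Mt d) ^ k - 1)) :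
    ∀ w, ∀ z ∈ ((rho w : (Mt d)ˣ) : Mt d).charpoly.roots, IsIntegral ℤ z := by
  intro w z hz
  have halg : IsAlgebraic ℚ z := (alg_of_bd fun s => vu_all hn rho hchr hvu w s z hz).1
  by_contra hint
  obtain ⟨p, hp, i, hi⟩ := nonint halg hint
  obtain ⟨D', pi, h6, h5, hr⟩ := red3 hn rho hchr
  have hna := na_padic p i
  obtain ⟨g, hg⟩ := hr w
  have h7 := na_pi p i pi h6 (h5 _ hna.mf fun j => by
    obtain ⟨k, hk, hk2⟩ := hvu j
    exact mv_vu hna.mf hk hk2) g z (hg z hz)
  have h8 : ‖i z‖ = 1 := h7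
  rw [h8] at hi
  exact lt_irrefl _ hi

/-- characteristic representations of free groups of rank at least 3 with virtually unipotent
generators are virtually solvable -/
theorem main {n d : ℕ} (hn : 3 ≤ n) (rho : FreeGroup (Fin n) →* (Mt d)ˣ) (hchr : Chr rho)
    (hvu : ∀ i, ∃ k : ℕ, 1 ≤ k ∧
      IsNilpotent (((rho (FreeGroup.of i) : (Mt d)ˣ) : Mt d) ^ k - 1)) :
    ∃ K : Subgroup rho.range, K.FiniteIndex ∧ IsSolvable K :=
  vsolv rho (fun w s z hz => vu_all hn rho hchr hvu w s z hz) (eig_int hn rho hchr hvu)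

end H36NA
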