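import Pool.Agent.H50.NA.Act

set_option autoImplicit false

/-!
# MP_b319aa_NA, A part, C7: almost fixed norms give fixed norms

Rounding: if p moves by less than w/(4(m+1)) under a, b, c, m = dim V, there is t such that no value of p is within
w/(2(m+1)) of t + wZ, and p'(x) = w floor((p x - t)/w) is a splittable norm fixed by a, b, c.
-/

namespace H36NA

open H50NA

noncomputable section

/-- a point of the circle far from finitely many points, and the floor is locally constant there -/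
theorem c7_flo (m : ℕ) {w : ℝ} (hw : 0 < w) (f : Fin m → ℝ) :
    ∃ t : ℝ, ∀ (i : Fin m) (n : ℤ) (s : ℝ), |s - (f i + n * w)| ≤ w / (4 * (m + 1)) →
      ⌊(s - t) / w⌋ = ⌊(f i + n * w - t) / w⌋ := by
  obtain ⟨k, hk⟩ : ∃ k : Fin (m + 1), ∀ i : Fin m, ((k : ℕ) : ℤ) ≠ ⌊((m : ℝ) + 1) * Int.fract (f i / w)⌋ := by
    by_contra hcon
    push Not at hcon
    choose g hg using hcon
    have hinj : Function.Injective g := by
      intro a b hab
      have h1 := hg a
      rw [hab, ← hg b] at h1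
      exact Fin.ext (by exact_mod_cast h1)
    have h2 := Fintype.card_le_of_injective g hinj
    simp at h2
  have hm : (0 : ℝ) < (m : ℝ) + 1 := by positivity
  refine ⟨w * (((k : ℕ) : ℝ) + 1 / 2) / (m + 1), fun i n s hs => ?_⟩
  obtain ⟨tau, htau⟩ : ∃ tau : ℝ, tau = (((k : ℕ) : ℝ) + 1 / 2) / (m + 1) := ⟨_, rfl⟩
  have ht : w * (((k : ℕ) : ℝ) + 1 / 2) / (m + 1) = w * tau := by rw [htau]; ring
  rw [ht]
  obtain ⟨u, hu⟩ : ∃ u : ℝ, u = s / w := ⟨_, rfl⟩
  have e1 : (s - w * tau) / w = u - tau := by rw [hu]; field_simp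
  have e2 : (f i + n * w - w * tau) / w = f i / w - tau + n := by field_simp; ring
  rw [e1, e2]
  obtain ⟨q, hq⟩ : ∃ q : ℝ, q = Int.fract (f i / w) := ⟨_, rfl⟩
  obtain ⟨N, hN⟩ : ∃ N : ℤ, N = ⌊f i / w⌋ := ⟨_, rfl⟩
  have e3 : f i / w = N + q := by rw [hN, hq]; exact (Int.floor_add_fract _).symm
  have hq0 : 0 ≤ q := by rw [hq]; exact Int.fract_nonneg _
  have hq1 : q < 1 := by rw [hq]; exact Int.fract_lt_one _
  have hki := hk i
  rw [← hq] at hki
  have hk1 : ((k : ℕ) : ℝ) + 1 ≤ m + 1 := by exact_mod_cast k.2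
  have hk0 : (0 : ℝ) ≤ ((k : ℕ) : ℝ) := by positivity
  have hd : |u - (f i / w + n)| ≤ 1 / (4 * (m + 1)) := by
    have h1 : u - (f i / w + n) = (s - (f i + n * w)) / w := by rw [hu]; field_simp
    rw [h1, abs_div, abs_of_pos hw, div_le_iff₀ hw]
    refine hs.trans (le_of_eq ?_)
    field_simp
  have hd' := abs_le.1 hd
  have h4 : (1 : ℝ) / (4 * (m + 1)) * (m + 1) = 1 / 4 := by field_simp
  have ht1 : tau * (m + 1) = ((k : ℕ) : ℝ) + 1 / 2 := by rw [htau]; field_simp
  have hm' : (m : ℝ) + 1 = (m : ℝ) + 1 := rfl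
  have hcase : (q < ((k : ℕ) : ℝ) / (m + 1)) ∨ (((k : ℕ) : ℝ) + 1) / (m + 1) ≤ q := by
    by_contra hcon
    push Not at hcon
    apply hki
    symm
    rw [Int.floor_eq_iff]
    obtain ⟨h5, h6⟩ := hcon
    rw [div_le_iff₀ hm] at h5
    rw [lt_div_iff₀ hm] at h6
    constructor
    · push_cast
      linarith
    · push_cast
      linarith
  have h7 : u - tau ≤ (N : ℝ) + n + q - tau + 1 / (4 * (m + 1)) := by rw [e3] at hd'; linarith
  have h8 : (N : ℝ) + n + q - tau - 1 / (4 * (m + 1)) ≤ u - tau := by rw [e3] at hd'; linarith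
  have htlo : 1 / (4 * ((m : ℝ) + 1)) < tau := by
    rw [htau, div_lt_div_iff₀ (by positivity) hm]
    nlinarith
  have hthi : tau + 1 / (4 * ((m : ℝ) + 1)) < 1 := by
    have h9 : (tau + 1 / (4 * ((m : ℝ) + 1))) * (m + 1) < 1 * (m + 1) := by
      rw [add_mul, h4, ht1]
      linarith
    exact lt_of_mul_lt_mul_right h9 hm.le
  rcases hcase with h5 | h5
  · have h6 : q + 1 / (4 * ((m : ℝ) + 1)) < tau := by
      rw [lt_div_iff₀ hm] at h5
      have h9 : (q + 1 / (4 * ((m : ℝ) + 1))) * (m + 1) < tau * (m + 1) := by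
        rw [add_mul, h4, ht1]
        linarith
      exact lt_of_mul_lt_mul_right h9 hm.le
    have r1 : ⌊u - tau⌋ = N + n - 1 := by
      rw [Int.floor_eq_iff]
      push_cast
      constructor <;> linarith
    have r2 : ⌊f i / w - tau + n⌋ = N + n - 1 := by
      rw [Int.floor_eq_iff, e3]
      push_cast
      have h10 : 0 < 1 / (4 * ((m : ℝ) + 1)) := by positivity
      constructor <;> linarith
    rw [r1, r2]
  · have h6 : tau + 1 / (4 * ((m : ℝ) + 1)) ≤ q := by
      rw [div_le_iff₀ hm] at h5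
      have h9 : (tau + 1 / (4 * ((m : ℝ) + 1))) * (m + 1) ≤ q * (m + 1) := by
        rw [add_mul, h4, ht1]
        linarith
      exact le_of_mul_le_mul_right h9 hm
    have r1 : ⌊u - tau⌋ = N + n := by
      rw [Int.floor_eq_iff]
      push_cast
      constructor <;> linarith
    have r2 : ⌊f i / w - tau + n⌋ = N + n := by
      rw [Int.floor_eq_iff, e3]
      push_cast
      have h10 : 0 < 1 / (4 * ((m : ℝ) + 1)) := by positivity
      constructor <;> linarith
    rw [r1, r2]

variable {K : Type} [Field K] (F : VF K) {V : Type} [AddCommGroup V] [Module K V] [Module.Finite K V]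

/-- norms are translated by constants -/
theorem trl_nrm {al : V → ℝ} (h : Nrm F al) (t : ℝ) : Nrm F (trl al t) := by
  refine ⟨by simp [trl], fun c x hc hx => ?_, fun x y hx hy hxy => ?_⟩
  · have h1 : c • x ≠ 0 := smul_ne_zero hc hx
    simp only [trl, if_neg h1, if_neg hx]
    rw [h.smul c x hc hx]
    ring
  · simp only [trl, if_neg hx, if_neg hy, if_neg hxy]
    have := h.add x y hx hy hxy
    rcases min_le_iff.1 this with h1 | h1
    · exact (min_le_left _ _).trans (by linarith)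
    · exact (min_le_right _ _).trans (by linarith)

theorem c7 (a b c : V ≃ₗ[K] V)
    (h : ∀ ep : ℝ, 0 < ep → ∃ p : Nm F V, dist p (act F a p) ≤ ep ∧ dist p (act F b p) ≤ ep ∧
      dist p (act F c p) ≤ ep) :
    ∃ p : Nm F V, act F a p = p ∧ act F b p = p ∧ act F c p = p := by
  have hw := F.wpos
  have hep : 0 < F.w / (4 * ((Module.finrank K V : ℝ) + 1)) := by positivity
  obtain ⟨p, hpa, hpb, hpc⟩ := h _ hep
  have hp := p.2
  obtain ⟨_, B, hB⟩ := hp
  obtain ⟨t, ht⟩ := c7_flo (Module.finrank K V) hw (fun i => p.1 (B i))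
  have hN : Nrm F (trl p.1 (-t)) := trl_nrm F (sn_nrm F p.2) (-t)
  have hS := H31NA.flr F hN p.2 (C := |t|) (fun x hx => by
    simp only [trl, if_neg hx]
    rw [add_sub_cancel_left, abs_neg])
  have key : ∀ g : V ≃ₗ[K] V, dist p (act F g p) ≤ F.w / (4 * ((Module.finrank K V : ℝ) + 1)) →
      act F g ⟨_, hS⟩ = ⟨_, hS⟩ := by
    intro g hg
    apply Subtype.ext
    funext x
    rw [act_val]
    by_cases hx : x = 0
    · rw [hx, map_zero]
    · have hx' : g.symm x ≠ 0 := fun h0 => hx (by simpa using h0)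
      simp only [trl, if_neg hx, if_neg hx']
      congr 2
      obtain ⟨i, n, hn⟩ := H31NA.spl_val F hB hx
      have h1 := abs_le_ds F p.2 (act F g p).2 x
      rw [dist_nm] at hg
      rw [act_val, hn] at h1
      have h2 := ht i n (p.1 (g.symm x)) (h1.trans hg)
      rw [hn, ← sub_eq_add_neg, ← sub_eq_add_neg]
      exact h2
  exact ⟨⟨_, hS⟩, key a hpa, key b hpb, key c hpc⟩

end

end H36NA
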