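import Pool.Agent.H36.NAA.Rst

set_option autoImplicit false

/-!
# MP_b319aa_NA, A part: eigenvalues of a matrix over k preserving a splittable norm
-/

namespace H36NA

open H50NA H80HM H80NA Matrix

noncomputable section

variable {k : Subfield ℂ} (F : VF k) {nu : ℂ → ℝ} {D : ℕ}

theorem nu_nonneg (hn : Na nu) (z : ℂ) : 0 ≤ nu z := by
  rcases eq_or_ne z 0 with h | h
  · rw [h, hn.zero]
  · exact (hn.mf.pos z h).le

/-- the ultrametric inequality for sums -/
theorem nu_sum (hn : Na nu) {ι : Type} (s : Finset ι) (f : ι → ℂ) {b : ℝ} (hb : 0 ≤ b)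
    (h : ∀ i ∈ s, nu (f i) ≤ b) : nu (∑ i ∈ s, f i) ≤ b := by
  classical
  induction s using Finset.induction_on with
  | empty => rw [Finset.sum_empty, hn.zero]; exact hb
  | insert a s ha ih =>
    rw [Finset.sum_insert ha]
    exact (hn.add _ _).trans (max_le (h a (Finset.mem_insert_self a s))
      (ih fun i hi => h i (Finset.mem_insert_of_mem hi)))

/-- weighted maximum: a matrix contracting a weighted sup norm has eigenvalues at most 1 -/
theorem ev_wt (hn : Na nu) {n : ℕ} (A : Mt n) (c : Fin n → ℝ)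
    (hA : ∀ i j, nu (A i j) ≤ Real.exp (c i - c j)) : ∀ z ∈ A.charpoly.roots, nu z ≤ 1 := by
  intro z hz
  have hz1 : z ∈ spectrum ℂ A := by
    rw [Matrix.mem_spectrum_iff_isRoot_charpoly]
    exact Polynomial.isRoot_of_mem_roots hz
  rw [← Matrix.spectrum_toLin', ← Module.End.hasEigenvalue_iff_mem_spectrum] at hz1
  obtain ⟨X, hX⟩ := hz1.exists_hasEigenvector
  have hX1 : A *ᵥ X = z • X := by
    have := hX.apply_eq_smul
    rwa [Matrix.toLin'_apply] at this
  have hX0 : X ≠ 0 := hX.2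
  have hne : ∃ i, X i ≠ 0 := by
    by_contra hcon
    push Not at hcon
    exact hX0 (funext hcon)
  obtain ⟨i0, hi0⟩ := hne
  obtain ⟨i, -, hi⟩ := Finset.exists_max_image Finset.univ (fun i => nu (X i) * Real.exp (- c i))
    ⟨i0, Finset.mem_univ _⟩
  have hpos : 0 < nu (X i) * Real.exp (- c i) :=
    lt_of_lt_of_le (mul_pos (hn.mf.pos _ hi0) (Real.exp_pos _)) (hi i0 (Finset.mem_univ _))
  have h1 : z * X i = ∑ j, A i j * X j := by
    have := congrFun hX1 i
    rw [Pi.smul_apply, smul_eq_mul] at this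
    rw [← this]
    rfl
  have h2 : nu (z * X i) ≤ Real.exp (c i) * (nu (X i) * Real.exp (- c i)) := by
    rw [h1]
    refine nu_sum hn _ _ (mul_nonneg (Real.exp_pos _).le hpos.le) fun j _ => ?_
    rw [hn.mf.mul]
    have h3 := hi j (Finset.mem_univ _)
    calc nu (A i j) * nu (X j) ≤ Real.exp (c i - c j) * nu (X j) :=
          mul_le_mul_of_nonneg_right (hA i j) (nu_nonneg hn _)
      _ = Real.exp (c i) * (nu (X j) * Real.exp (- c j)) := by
          rw [sub_eq_add_neg, Real.exp_add]; ring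
      _ ≤ _ := mul_le_mul_of_nonneg_left h3 (Real.exp_pos _).le
  have h4 : Real.exp (c i) * (nu (X i) * Real.exp (- c i)) = nu (X i) := by
    rw [mul_comm (nu (X i)), ← mul_assoc, ← Real.exp_add, add_neg_cancel, Real.exp_zero, one_mul]
  rw [h4, hn.mf.mul] at h2
  have h5 : 0 < nu (X i) := by
    rcases (mul_pos_iff.1 hpos) with h | h
    · exact h.1
    · exact absurd h.2 (not_lt.2 (Real.exp_pos _).le)
  exact (mul_le_iff_le_one_left h5).1 h2

theorem ev_le (hn : Na nu) (hF : ∀ x : k, x ≠ 0 → F.v x = - Real.log (nu (x : ℂ)))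
    (f : (Fin D → k) ≃ₗ[k] (Fin D → k)) (M : Mt D)
    (hM : ∀ (x : Fin D → k) (i : Fin D), ((f x i : k) : ℂ) = (M *ᵥ fun j => (x j : ℂ)) i)
    {p : (Fin D → k) → ℝ} (hp : SN F p) (hinv : ∀ x, p (f x) = p x) :
    ∀ z ∈ M.charpoly.roots, nu z ≤ 1 := by
  obtain ⟨h0, B, hB⟩ := hp
  obtain ⟨A, hA⟩ : ∃ A, A = LinearMap.toMatrix B B (f : (Fin D → k) →ₗ[k] (Fin D → k)) := ⟨_, rfl⟩
  have hAij : ∀ i j, A i j = B.repr (f (B j)) i := by
    intro i j
    rw [hA, LinearMap.toMatrix_apply]
    rfl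
  have h1 : M.charpoly = (A.map (k.subtype)).charpoly := by
    have e1 : M = (LinearMap.toMatrix' (f : (Fin D → k) →ₗ[k] (Fin D → k))).map (k.subtype) := by
      ext i j
      rw [Matrix.map_apply, LinearMap.toMatrix'_apply]
      have h2 := hM (fun j' => if j' = j then 1 else 0) i
      have h3 : (M *ᵥ fun j' => (((if j' = j then (1 : k) else 0) : k) : ℂ)) i = M i j := by
        rw [Matrix.mulVec, dotProduct, Finset.sum_eq_single j]
        · simp
        · intro b _ hb
          simp [hb]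
        · intro hj
          exact absurd (Finset.mem_univ _) hj
      rw [h3] at h2
      have h4 : (Pi.single j (1 : k) : Fin D → k) = fun j' => if j' = j then 1 else 0 := by
        funext j'
        rw [Pi.single_apply]
      rw [h4]
      exact h2.symm
    rw [e1, Matrix.charpoly_map, Matrix.charpoly_map]
    congr 1
    rw [hA, LinearMap.charpoly_toMatrix, ← LinearMap.charpoly_toMatrix _ (Pi.basisFun k (Fin D))]
    rfl
  rw [h1]
  refine ev_wt hn _ (fun i => p (B i)) fun i j => ?_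
  rw [Matrix.map_apply]
  change nu ((A i j : k) : ℂ) ≤ _
  by_cases hij : A i j = 0
  · rw [hij]
    change nu (0 : ℂ) ≤ _
    rw [hn.zero]
    exact (Real.exp_pos _).le
  · have hij' : ((A i j : k) : ℂ) ≠ 0 := fun h => hij (Subtype.ext h)
    have h2 : f (B j) ≠ 0 := by
      intro h
      exact B.ne_zero j ((LinearEquiv.map_eq_zero_iff f).1 h)
    have h3 := (hB _ h2).1 i (by rw [← hAij]; exact hij)
    rw [hinv, ← hAij, hF _ hij] at h3
    have h4 : Real.log (nu ((A i j : k) : ℂ)) ≤ p (B i) - p (B j) := by linarith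
    exact (Real.log_le_iff_le_exp (hn.mf.pos _ hij')).1 h4

/-- roots of the charpoly of the inverse -/
theorem ev_inv {D : ℕ} (M : (Mt D)ˣ) {z : ℂ} (hz : z ∈ ((M : Mt D)).charpoly.roots) :
    z ≠ 0 ∧ z⁻¹ ∈ (((M⁻¹ : (Mt D)ˣ) : Mt D)).charpoly.roots := by
  have hz1 : z ∈ spectrum ℂ (M : Mt D) := by
    rw [Matrix.mem_spectrum_iff_isRoot_charpoly]
    exact Polynomial.isRoot_of_mem_roots hz
  have hz0 : z ≠ 0 := spectrum.ne_zero_of_mem_of_unit hz1
  have h1 := (spectrum.inv_mem_iff (R := ℂ) (r := Units.mk0 z hz0) (a := M)).1 hz1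
  refine ⟨hz0, ?_⟩
  rw [Polynomial.mem_roots (Matrix.charpoly_monic _).ne_zero,
    ← Matrix.mem_spectrum_iff_isRoot_charpoly]
  exact h1

end

end H36NA
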