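import Pool.Agent.H36.NAA.Evl
import Pool.Agent.H80.NA.Na3
import Pool.Agent.H80.NA.Dsc
import Pool.Agent.H80.NA.Vfk
import Pool.Agent.H80.NA.Ivn
import Pool.Agent.H80.HM.Thn

set_option autoImplicit false

/-!
# MP_b319aa_NA, A part: the theorem for the free group on three letters, p-adic places

x, y, p; the three configurations of Pool/Agent/H80/HM/Thn.lean; na3 over a finitely generated subfield k
containing the entries of all matrices involved.
-/

namespace H36NA

open H50NA H80HM H80NA Matrix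

noncomputable section

theorem npi_fld (p : ℕ) [Fact p.Prime] (i : ℂ ≃+* PadicAlgCl p) {D : ℕ} (L : Finset (Mt D)ˣ) :
    ∃ (k : Subfield ℂ) (F : VF k) (H : Subgroup (Mt D)ˣ)
      (La : H →* ((Fin D → k) ≃ₗ[k] (Fin D → k))),
      (∀ x : k, x ≠ 0 → F.v x = - Real.log ‖i (x : ℂ)‖) ∧ Rf F ∧ (∀ M ∈ L, M ∈ H) ∧
      ∀ (M : H) (x : Fin D → k) (j : Fin D),
        ((La M x j : k) : ℂ) = (((M : (Mt D)ˣ) : Mt D) *ᵥ fun l => (x l : ℂ)) j := by
  classical
  obtain ⟨k, F, hS, hF, hR⟩ := vf_sub p i (L.biUnion fun M =>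
    ((Finset.univ : Finset (Fin D × Fin D)).image fun ij => (M : Mt D) ij.1 ij.2) ∪
    ((Finset.univ : Finset (Fin D × Fin D)).image fun ij => ((M⁻¹ : (Mt D)ˣ) : Mt D) ij.1 ij.2))
  obtain ⟨H, La, hH, hLa⟩ := desc D k
  refine ⟨k, F, H, La, hF, hR, fun M hM => ?_, hLa⟩
  rw [hH]
  intro a b
  constructor
  · apply hS
    rw [Finset.mem_coe, Finset.mem_biUnion]
    exact ⟨M, hM, Finset.mem_union_left _ (Finset.mem_image_of_mem
      (fun ij : Fin D × Fin D => (M : Mt D) ij.1 ij.2) (Finset.mem_univ (a, b)))⟩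
  · apply hS
    rw [Finset.mem_coe, Finset.mem_biUnion]
    exact ⟨M, hM, Finset.mem_union_right _ (Finset.mem_image_of_mem
      (fun ij : Fin D × Fin D => ((M⁻¹ : (Mt D)ˣ) : Mt D) ij.1 ij.2) (Finset.mem_univ (a, b)))⟩

/-- pairs all of whose words have eigenvalues of absolute value 1 preserve a splittable norm -/
theorem npi_cusp {k : Subfield ℂ} (F : VF k) {nu : ℂ → ℝ} {D : ℕ} (hn : Na nu)
    (hF : ∀ x : k, x ≠ 0 → F.v x = - Real.log (nu (x : ℂ)))
    (pi : FreeGroup (Fin 3) →* (Mt D)ˣ)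
    (L : FreeGroup (Fin 3) →* ((Fin D → k) ≃ₗ[k] (Fin D → k)))
    (hL : ∀ (g : FreeGroup (Fin 3)) (x : Fin D → k) (j : Fin D),
        ((L g x j : k) : ℂ) = (((pi g : (Mt D)ˣ) : Mt D) *ᵥ fun l => (x l : ℂ)) j)
    (u v : FreeGroup (Fin 3)) (h : Mprv nu pi u v) :
    ∃ p : (Fin D → k) → ℝ, SN F p ∧ (∀ x, p (L u x) = p x) ∧ ∀ x, p (L v x) = p x := by
  classical
  obtain ⟨t, ht⟩ : ∃ t : FreeGroup (Fin 2) →* FreeGroup (Fin 3),
      t (FreeGroup.of 0) = u ∧ t (FreeGroup.of 1) = v :=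
    ⟨FreeGroup.lift ![u, v], by simp, by simp⟩
  have hmem : ∀ g, t g ∈ Subgroup.closure ({u, v} : Set (FreeGroup (Fin 3))) := by
    intro g
    induction g using FreeGroup.induction_on with
    | C1 => rw [map_one]; exact Subgroup.one_mem _
    | of i =>
      fin_cases i
      · change t (FreeGroup.of 0) ∈ _
        rw [ht.1]
        exact Subgroup.subset_closure (by simp)
      · change t (FreeGroup.of 1) ∈ _
        rw [ht.2]
        exact Subgroup.subset_closure (by simp)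
    | inv_of i hi => rw [map_inv]; exact Subgroup.inv_mem _ hi
    | mul a b ha hb => rw [map_mul]; exact Subgroup.mul_mem _ ha hb
  obtain ⟨N, h1, h2, h3, h4, h5⟩ := Ivn_norm hn (Finset.univ.image fun i : Fin 2 => FreeGroup.of i)
    (by
      rw [Finset.coe_image, Finset.coe_univ, Set.image_univ]
      exact FreeGroup.closure_range_of (Fin 2)) (pi.comp t) (fun g => h _ (hmem g))
  obtain ⟨p, hp, hpe⟩ := rst F hn hF h1 h2 h3 h4
  have h6 : ∀ g x, p (L (t g) x) = p x := by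
    intro g x
    apply hpe
    have h7 : inc (L (t g) x) = ((pi.comp t g : (Mt D)ˣ) : Mt D) *ᵥ inc x := by
      funext j
      exact hL (t g) x j
    rw [h7]
    exact h5 g _
  refine ⟨p, hp, fun x => ?_, fun x => ?_⟩
  · have := h6 (FreeGroup.of 0) x
    rwa [ht.1] at this
  · have := h6 (FreeGroup.of 1) x
    rwa [ht.2] at this

theorem npi_pair {nu : ℂ → ℝ} {D' : ℕ} (pi : FreeGroup (Fin 3) →* (Mt D')ˣ) (h5 : Mp5v nu pi)
    (c : Fin 3) : Mprv nu pi (Thn_c c 0) (Thn_c c 2) ∧ Mprv nu pi (Thn_c c 1) (Thn_c c 2) := by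
  obtain ⟨m1, m2, m3, m4, m5⟩ := h5
  have mono : ∀ u v u' v' : FreeGroup (Fin 3), u' ∈ Subgroup.closure ({u, v} : Set _) →
      v' ∈ Subgroup.closure ({u, v} : Set _) → Mprv nu pi u v → Mprv nu pi u' v' := by
    intro u v u' v' hu hv h g hg
    apply h g
    refine (Subgroup.closure_le _).2 ?_ hg
    intro w hw
    rcases hw with rfl | hw
    · exact hu
    · rw [Set.mem_singleton_iff.1 hw]
      exact hv
  have a1 : ∀ u v : FreeGroup (Fin 3), u ∈ Subgroup.closure ({u, v} : Set _) := fun u v =>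
    Subgroup.subset_closure (by simp)
  have a2 : ∀ u v : FreeGroup (Fin 3), v ∈ Subgroup.closure ({u, v} : Set _) := fun u v =>
    Subgroup.subset_closure (by simp)
  have a3 : ∀ u v : FreeGroup (Fin 3), u * v ∈ Subgroup.closure ({u, v} : Set _) := fun u v =>
    Subgroup.mul_mem _ (a1 u v) (a2 u v)
  have a4 : ∀ u v : FreeGroup (Fin 3), u * v⁻¹ ∈ Subgroup.closure ({u, v} : Set _) := fun u v =>
    Subgroup.mul_mem _ (a1 u v) (Subgroup.inv_mem _ (a2 u v))
  fin_cases c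
  · exact ⟨mono yy pp (yy * pp) yy (a3 _ _) (a1 _ _) m1, m2⟩
  · exact ⟨mono xx pp xx (xx * pp⁻¹) (a1 _ _) (a4 _ _) m3, m4⟩
  · exact ⟨mono xx pp xx (xx * pp⁻¹) (a1 _ _) (a4 _ _) m3, m5⟩

theorem npi_conj {D : ℕ} {k : Subfield ℂ} {H : Subgroup (Mt D)ˣ}
    (La : H →* ((Fin D → k) ≃ₗ[k] (Fin D → k))) (pi : FreeGroup (Fin 3) →* (Mt D)ˣ)
    (hpi : ∀ g, pi g ∈ H) {a : FreeGroup (Fin 3) ≃* FreeGroup (Fin 3)} {T : (Mt D)ˣ} (hT : T ∈ H)
    (h : ∀ g, pi (a g) = T * pi g * T⁻¹) (g : FreeGroup (Fin 3)) :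
    La (pi.codRestrict H hpi (a g)) =
      La ⟨T, hT⟩ * La (pi.codRestrict H hpi g) * (La ⟨T, hT⟩)⁻¹ := by
  rw [← map_inv, ← map_mul, ← map_mul]
  congr 1
  exact Subtype.ext (h g)

theorem na_pi (p : ℕ) [Fact p.Prime] (i : ℂ ≃+* PadicAlgCl p) {D : ℕ}
    (pi : FreeGroup (Fin 3) →* (Mt D)ˣ) (h6 : Tw6 pi) (h5 : Mp5v (fun z => ‖i z‖) pi) :
    ∀ g, Mv (fun z => ‖i z‖) ((pi g : (Mt D)ˣ) : Mt D) := by
  classical
  have hn := na_padic p i
  obtain ⟨⟨s1, b11, b12, b13, T1, e1⟩, ⟨s2, b21, b22, b23, T2, e2⟩, ⟨s3, b31, b32, b33, T3, e3⟩,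
    ⟨s4, b41, b42, b43, T4, e4⟩, ⟨s5, b51, b52, b53, T5, e5⟩, ⟨s6, b61, b62, b63, T6, e6⟩⟩ := h6
  obtain ⟨k, F, H, La, hF, hR, hmem, hLa⟩ := npi_fld p i
    ({pi xx, pi yy, pi pp, T1, T2, T3, T4, T5, T6} : Finset (Mt D)ˣ)
  have hT1 : T1 ∈ H := hmem _ (by simp)
  have hT2 : T2 ∈ H := hmem _ (by simp)
  have hT3 : T3 ∈ H := hmem _ (by simp)
  have hT4 : T4 ∈ H := hmem _ (by simp)
  have hT5 : T5 ∈ H := hmem _ (by simp)
  have hT6 : T6 ∈ H := hmem _ (by simp)
  have hx : pi xx ∈ H := hmem _ (by simp)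
  have hy : pi yy ∈ H := hmem _ (by simp)
  have hpp : pi pp ∈ H := hmem _ (by simp)
  have hpi : ∀ g, pi g ∈ H := by
    intro g
    induction g using FreeGroup.induction_on with
    | C1 => rw [map_one]; exact Subgroup.one_mem _
    | of i =>
      fin_cases i
      · exact hx
      · exact hy
      · exact hpp
    | inv_of i hi => rw [map_inv]; exact Subgroup.inv_mem _ hi
    | mul a b ha hb => rw [map_mul]; exact Subgroup.mul_mem _ ha hb
  obtain ⟨L, hLd⟩ : ∃ L : FreeGroup (Fin 3) →* ((Fin D → k) ≃ₗ[k] (Fin D → k)),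
      ∀ g, L g = La (pi.codRestrict H hpi g) := ⟨La.comp (pi.codRestrict H hpi), fun g => rfl⟩
  have hL : ∀ (g : FreeGroup (Fin 3)) (x : Fin D → k) (j : Fin D),
      ((L g x j : k) : ℂ) = (((pi g : (Mt D)ˣ) : Mt D) *ᵥ fun l => (x l : ℂ)) j := by
    intro g x j
    rw [hLd]
    exact hLa _ x j
  have hconj : ∀ {a : FreeGroup (Fin 3) ≃* FreeGroup (Fin 3)} {T : (Mt D)ˣ} (hT : T ∈ H)
      (_ : ∀ g, pi (a g) = T * pi g * T⁻¹) (g : FreeGroup (Fin 3)),
      L (a g) = La ⟨T, hT⟩ * L g * (La ⟨T, hT⟩)⁻¹ := by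
    intro a T hT h g
    rw [hLd, hLd]
    exact npi_conj La pi hpi hT h g
  obtain ⟨q, hq, hq0, hq1, hq2⟩ := na3 F hR (V := Fin D → k) (ι := Fin 3)
    (fun c => L (Thn_c c 0)) (fun c => L (Thn_c c 1)) (fun c => L (Thn_c c 2))
    (fun c => npi_cusp F hn hF pi L hL _ _ (npi_pair pi h5 c).1)
    (fun c => npi_cusp F hn hF pi L hL _ _ (npi_pair pi h5 c).2)
    (by
      intro j
      fin_cases j
      · refine ⟨0, La ⟨T1, hT1⟩, ?_, ?_, ?_⟩
        · rw [← hconj hT1 e1]
          congr 1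
          change yy * pp = s1 (yy * pp)
          rw [map_mul, b12, b13]
        · rw [← hconj hT1 e1, ← map_inv, ← map_mul]
          congr 1
          exact b11.symm
        · rw [← hconj hT1 e1]
          congr 1
          exact b12.symm
      · refine ⟨2, La ⟨T3, hT3⟩, ?_, ?_, ?_⟩
        · rw [← hconj hT3 e3]
          congr 1
          exact b31.symm
        · rw [← hconj hT3 e3, ← map_inv, ← map_mul]
          congr 1
          change xx * pp⁻¹ * yy⁻¹ = s3 (yy * pp⁻¹)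
          rw [map_mul, map_inv, b32, b33]
          group
        · rw [← hconj hT3 e3]
          congr 1
          change xx * pp⁻¹ = s3 (xx * pp⁻¹)
          rw [map_mul, map_inv, b31, b33]
      · refine ⟨1, La ⟨T2, hT2⟩, ?_, ?_, ?_⟩
        · rw [← hconj hT2 e2]
          congr 1
          exact b21.symm
        · rw [← hconj hT2 e2, ← map_inv, ← map_mul]
          congr 1
          change xx * pp⁻¹ * (yy * pp⁻¹)⁻¹ = s2 yy
          rw [b22]
          group
        · rw [← hconj hT2 e2]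
          congr 1
          change xx * pp⁻¹ = s2 (xx * pp⁻¹)
          rw [map_mul, map_inv, b21, b23])
    (by
      have hS : ∀ (h : FreeGroup (Fin 3)) {a : FreeGroup (Fin 3) ≃* FreeGroup (Fin 3)}
          {T : (Mt D)ˣ} (hT : T ∈ H) (_ : ∀ g, pi (a g) = T * pi g * T⁻¹) (g : FreeGroup (Fin 3)),
          L h * La ⟨T, hT⟩ * L g * (L h * La ⟨T, hT⟩)⁻¹ = L (h * a g * h⁻¹) := by
        intro h a T hT he g
        rw [map_mul, map_mul, hconj hT he, map_inv]
        group
      intro j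
      fin_cases j
      · refine ⟨2, L xx * La ⟨T5, hT5⟩, ?_, ?_, ?_⟩
        · rw [hS xx hT5 e5, ← map_inv, ← map_mul]
          congr 1
          change yy * (xx * pp⁻¹)⁻¹ = xx * s5 (yy * pp) * xx⁻¹
          rw [map_mul, b52, b53]
          group
        · rw [hS xx hT5 e5]
          congr 1
          change yy = xx * s5 xx * xx⁻¹
          rw [b51]
          group
        · rw [hS xx hT5 e5, ← map_inv, ← map_mul]
          congr 1
          change yy * xx⁻¹ = xx * s5 yy * xx⁻¹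
          rw [b52]
          group
      · refine ⟨1, L xx * La ⟨T6, hT6⟩, ?_, ?_, ?_⟩
        · rw [hS xx hT6 e6, ← map_inv, ← map_mul]
          congr 1
          change yy * pp⁻¹ * (xx * pp⁻¹)⁻¹ = xx * s6 xx * xx⁻¹
          rw [b61]
          group
        · rw [hS xx hT6 e6]
          congr 1
          change yy * pp⁻¹ = xx * s6 (yy * pp⁻¹) * xx⁻¹
          rw [map_mul, map_inv, b62, b63]
          group
        · rw [hS xx hT6 e6, ← map_inv, ← map_mul]
          congr 1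
          change yy * pp⁻¹ * xx⁻¹ = xx * s6 (xx * pp⁻¹) * xx⁻¹
          rw [map_mul, map_inv, b61, b63]
          group
      · refine ⟨0, L yy * La ⟨T4, hT4⟩, ?_, ?_, ?_⟩
        · rw [hS yy hT4 e4, ← map_inv, ← map_mul]
          congr 1
          change xx * yy⁻¹ = yy * s4 xx * yy⁻¹
          rw [b41]
          group
        · rw [hS yy hT4 e4]
          congr 1
          change xx = yy * s4 yy * yy⁻¹
          rw [b42]
          group
        · rw [hS yy hT4 e4, ← map_inv, ← map_mul]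
          congr 1
          change xx * (yy * pp)⁻¹ = yy * s4 (xx * pp⁻¹) * yy⁻¹
          rw [map_mul, map_inv, b41, b43]
          group)
    (0 : Fin 3)
  have hall : ∀ g, ∀ x, q (L g x) = q x := by
    intro g
    have hg : g ∈ Subgroup.closure ({Thn_c 0 0, Thn_c 0 1, Thn_c 0 2} : Set (FreeGroup (Fin 3))) := by
      rw [Thn_gen]
      exact Subgroup.mem_top g
    induction hg using Subgroup.closure_induction with
    | mem u hu =>
      rcases hu with rfl | rfl | hu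
      · exact hq0
      · exact hq1
      · rw [Set.mem_singleton_iff.1 hu]
        exact hq2
    | one =>
      intro x
      rw [map_one]
      rfl
    | mul u v _ _ hu hv =>
      intro x
      rw [map_mul]
      exact (hu _).trans (hv x)
    | inv u _ hu =>
      intro x
      have h7 := hu (L u⁻¹ x)
      have h8 : L u (L u⁻¹ x) = x := by
        have : (L u * L u⁻¹) x = x := by
          rw [← map_mul, mul_inv_cancel, map_one]
          rfl
        exact this
      rw [h8] at h7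
      exact h7.symm
  intro g z hz
  apply le_antisymm
  · exact ev_le F hn hF (L g) _ (hL g) hq (hall g) z hz
  · obtain ⟨hz0, hz1⟩ := ev_inv (pi g) hz
    rw [← map_inv] at hz1
    have h7 := ev_le F hn hF (L g⁻¹) _ (hL g⁻¹) hq (hall g⁻¹) _ hz1
    have h8 := hn.mf.mul z z⁻¹
    rw [mul_inv_cancel₀ hz0, hn.mf.one] at h8
    have h9 := hn.mf.pos z hz0
    have h10 : ‖i z‖ * ‖i z⁻¹‖ ≤ ‖i z‖ * 1 := mul_le_mul_of_nonneg_left h7 h9.le
    have h11 : (1 : ℝ) = ‖i z‖ * ‖i z⁻¹‖ := h8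
    linarith

end

end H36NA
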