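import Pool.Agent.H36.NAA.C7
import Pool.Agent.H80.NA.Nu

set_option autoImplicit false

/-!
# MP_b319aa_NA, A part: restriction of a nonarchimedean norm on C^D to k^D, rounded to a splittable norm
-/

namespace H36NA

open H50NA H80HM H80NA

noncomputable section

variable {k : Subfield ℂ} (F : VF k) {nu : ℂ → ℝ} {D : ℕ}

/-- the inclusion of k^D in C^D -/
def inc (x : Fin D → k) : Fin D → ℂ := fun i => (x i : ℂ)

theorem inc_ne {x : Fin D → k} (hx : x ≠ 0) : ∃ i, (x i : k) ≠ 0 := by
  by_contra hcon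
  push Not at hcon
  exact hx (funext hcon)

theorem inc_ne' {x : Fin D → k} (i : Fin D) (h : x i ≠ 0) : ((x i : k) : ℂ) ≠ 0 := by
  intro h0
  exact h (Subtype.ext h0)

/-- -log of a norm, restricted -/
def lgn (N : (Fin D → ℂ) → ℝ) (x : Fin D → k) : ℝ :=
  open Classical in if x = 0 then 0 else - Real.log (N (inc x))

theorem rst (hn : Na nu) (hF : ∀ x : k, x ≠ 0 → F.v x = - Real.log (nu (x : ℂ)))
    {N : (Fin D → ℂ) → ℝ} (hadd : ∀ x y, N (x + y) ≤ max (N x) (N y))
    (hsmul : ∀ (c : ℂ) (x), N (c • x) = nu c * N x)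
    (hlo : ∃ c : ℝ, 0 < c ∧ ∀ x i, nu (x i) ≤ c * N x)
    (hup : ∃ c : ℝ, 0 < c ∧ ∀ x : Fin D → ℂ, ∀ b : ℝ, 0 ≤ b → (∀ i, nu (x i) ≤ b) → N x ≤ c * b) :
    ∃ p : (Fin D → k) → ℝ, SN F p ∧ ∀ x y : Fin D → k, N (inc x) = N (inc y) → p x = p y := by
  obtain ⟨c1, hc1, h1⟩ := hlo
  obtain ⟨c2, hc2, h2⟩ := hup
  have hpos : ∀ x : Fin D → k, x ≠ 0 → 0 < N (inc x) := by
    intro x hx
    obtain ⟨i, hi⟩ := inc_ne hx
    have h3 := h1 (inc x) i
    have h4 := hn.mf.pos _ (inc_ne' i hi)
    have h5 : 0 < c1 * N (inc x) := lt_of_lt_of_le h4 h3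
    exact (mul_pos_iff_of_pos_left hc1).1 h5
  have h0 : ∀ x : Fin D → k, x = 0 → N (inc x) = 0 := by
    intro x hx
    have h3 := hsmul 0 0
    rw [smul_zero, hn.zero, zero_mul] at h3
    have h4 : inc x = 0 := by
      rw [hx]
      funext i
      rfl
    rw [h4, h3]
  -- the norm -log N
  have hN : Nrm F (lgn (k := k) N) := by
    refine ⟨by simp [lgn], fun c x hc hx => ?_, fun x y hx hy hxy => ?_⟩
    · have h3 : c • x ≠ 0 := smul_ne_zero hc hx
      simp only [lgn, if_neg h3, if_neg hx]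
      have h4 : inc (c • x) = (c : ℂ) • inc x := by
        funext i
        simp [inc]
      have hc' : (c : ℂ) ≠ 0 := fun h => hc (Subtype.ext h)
      rw [h4, hsmul, Real.log_mul (hn.mf.pos _ hc').ne' (hpos x hx).ne', hF c hc]
      ring
    · simp only [lgn, if_neg hx, if_neg hy, if_neg hxy]
      have h4 : inc (x + y) = inc x + inc y := by
        funext i
        simp [inc]
      have h5 := hadd (inc x) (inc y)
      rw [← h4] at h5
      rcases le_total (N (inc x)) (N (inc y)) with h6 | h6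
      · rw [max_eq_right h6] at h5
        exact (min_le_right _ _).trans (neg_le_neg (Real.log_le_log (hpos _ hxy) h5))
      · rw [max_eq_left h6] at h5
        exact (min_le_left _ _).trans (neg_le_neg (Real.log_le_log (hpos _ hxy) h5))
  -- the standard norm
  obtain ⟨e, he⟩ : ∃ e : Fin D ≃ Fin (Module.finrank k (Fin D → k)), True :=
    ⟨finCongr (by rw [Module.finrank_fin_fun]), trivial⟩
  obtain ⟨B, hB⟩ : ∃ B : Bs k (Fin D → k), ∀ x i, B.repr x i = x (e.symm i) :=
    ⟨(Pi.basisFun k (Fin D)).reindex e, fun x i => by simp⟩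
  have hst := mkn_spl F B (fun _ => 0)
  have hst0 : SN F (mkn F B (fun _ => 0)) := ⟨hst.2.2, B, hst.1⟩
  have hbd : ∀ x : Fin D → k, x ≠ 0 →
      |lgn N x - mkn F B (fun _ => 0) x| ≤ |Real.log c1| + |Real.log c2| := by
    intro x hx
    obtain ⟨h3, i, h4, h5⟩ := hst.1 x hx
    simp only [hst.2.1, add_zero] at h3 h5
    simp only [lgn, if_neg hx]
    rw [hB] at h4
    have hi := inc_ne' _ h4
    rw [h5, hB, hF _ h4]
    have h6 : Real.log (nu (x (e.symm i) : ℂ)) ≤ Real.log c1 + Real.log (N (inc x)) := by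
      rw [← Real.log_mul hc1.ne' (hpos x hx).ne']
      exact Real.log_le_log (hn.mf.pos _ hi) (h1 (inc x) (e.symm i))
    have h7 : Real.log (N (inc x)) ≤ Real.log c2 + Real.log (nu (x (e.symm i) : ℂ)) := by
      rw [← Real.log_mul hc2.ne' (hn.mf.pos _ hi).ne']
      refine Real.log_le_log (hpos x hx) (h2 _ _ (hn.mf.pos _ hi).le fun j => ?_)
      by_cases hj : x j = 0
      · have : inc x j = 0 := by rw [inc, hj]; rfl
        rw [this, hn.zero]
        exact (hn.mf.pos _ hi).le
      · have hj' := inc_ne' _ hj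
        have h8 := h3 (e j) (by rw [hB, Equiv.symm_apply_apply]; exact hj)
        rw [h5, hB, hB, Equiv.symm_apply_apply, hF _ h4, hF _ hj] at h8
        exact (Real.log_le_log_iff (hn.mf.pos _ hj') (hn.mf.pos _ hi)).1 (by linarith)
    have h9 := le_abs_self (Real.log c1)
    have h10 := le_abs_self (Real.log c2)
    have h11 := abs_nonneg (Real.log c1)
    have h12 := abs_nonneg (Real.log c2)
    rw [abs_le]
    constructor <;> linarith
  have hfl := H31NA.flr F hN hst0 hbd
  refine ⟨_, hfl, fun x y hxy => ?_⟩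
  have h3 : lgn (k := k) N x = lgn N y := by
    by_cases hx : x = 0
    · by_cases hy : y = 0
      · rw [hx, hy]
      · have := hpos y hy
        rw [← hxy, h0 x hx] at this
        exact absurd this (lt_irrefl _)
    · by_cases hy : y = 0
      · have := hpos x hx
        rw [hxy, h0 y hy] at this
        exact absurd this (lt_irrefl _)
      · simp only [lgn, if_neg hx, if_neg hy, hxy]
  simp only [h3]

end

end H36NA
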