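import Pool.Agent.H36.NAA.Asm

set_option autoImplicit false

/-!
# Characteristic representations: simultaneous unitriangular form on a characteristic subgroup
-/

namespace H36NA

open H80HM Matrix
open scoped commutatorElement

attribute [local instance 100] LieRing.ofAssociativeRing

/-- An endomorphism all of whose powers have trace zero is nilpotent. -/
private theorem Uni_trace {F V : Type*} [Field F] [CharZero F] [AddCommGroup V] [Module F V]
    [FiniteDimensional F V] (T : Module.End F V)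
    (hT : ∀ j : ℕ, 0 < j → LinearMap.trace F V (T ^ j) = 0) : IsNilpotent T := by
  obtain ⟨q, hq, hnd⟩ := Polynomial.exists_eq_pow_rootMultiplicity_mul_and_not_dvd
    T.charpoly T.charpoly_monic.ne_zero (0 : F)
  set n := Polynomial.rootMultiplicity (0 : F) T.charpoly with hn
  rw [Polynomial.C_0, sub_zero] at hq hnd
  have hcop : IsCoprime (Polynomial.X ^ (n + 1) : Polynomial F) q :=
    (Polynomial.irreducible_X.coprime_iff_not_dvd.mpr hnd).pow_left
  obtain ⟨a, b, hab⟩ := hcop
  obtain ⟨φ, hφ⟩ : ∃ φ : Polynomial F →ₐ[F] Module.End F V, φ = Polynomial.aeval T := ⟨_, rfl⟩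
  have hφX : φ Polynomial.X = T := by rw [hφ, Polynomial.aeval_X]
  have hcp : φ (Polynomial.X ^ n * q) = 0 := by
    rw [← hq, hφ]; exact T.aeval_self_charpoly
  obtain ⟨e, he⟩ : ∃ e, e = φ (a * Polynomial.X ^ (n + 1)) := ⟨_, rfl⟩
  have hidem : IsIdempotentElem e := by
    have h1 : e * (1 - e) = 0 := by
      have h2 : (1 : Module.End F V) - e = φ (b * q) := by
        rw [he, ← map_one φ, ← hab, map_add, add_sub_cancel_left]
      rw [h2, he, ← map_mul]
      have h3 : a * Polynomial.X ^ (n + 1) * (b * q) =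
          (a * b * Polynomial.X) * (Polynomial.X ^ n * q) := by ring
      rw [h3, map_mul, hcp, mul_zero]
    have h4 : e * e = e - e * (1 - e) := by rw [mul_sub, mul_one]; abel
    rw [IsIdempotentElem, h4, h1, sub_zero]
  have htr : LinearMap.trace F V e = 0 := by
    have h5 : ∀ p : Polynomial F,
        LinearMap.trace F V (φ (p * Polynomial.X ^ (n + 1))) = 0 := by
      intro p
      induction p using Polynomial.induction_on' with
      | add p q hp hq => rw [add_mul, map_add, map_add, hp, hq, add_zero]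
      | monomial m c =>
        rw [← Polynomial.C_mul_X_pow_eq_monomial, mul_assoc, ← pow_add, ← Polynomial.smul_eq_C_mul,
          map_smul, map_pow, hφX, map_smul, hT _ (by omega), smul_zero]
    rw [he]; exact h5 a
  have he0 : e = 0 := (LinearMap.IsIdempotentElem.trace_eq_zero_iff hidem).mp htr
  have h6 : φ (b * q) = 1 := by
    have := congrArg φ hab
    rw [map_add, map_one, ← he, he0, zero_add] at this
    exact this
  refine ⟨n, ?_⟩
  have h7 : φ (Polynomial.X ^ n) = T ^ n := by rw [map_pow, hφX]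
  have h8 : φ (Polynomial.X ^ n) * φ (b * q) = 0 := by
    rw [← map_mul]
    have h9 : Polynomial.X ^ n * (b * q) = b * (Polynomial.X ^ n * q) := by ring
    rw [h9, map_mul, hcp, mul_zero]
  rw [h6, mul_one, h7] at h8
  exact h8

/-- The span of all `g - 1`, as endomorphisms. -/
private def Uni_S {k : ℕ} (G : Subgroup (Mt k)ˣ) : Submodule ℂ (Module.End ℂ (Fin k → ℂ)) :=
  Submodule.span ℂ {x | ∃ g ∈ G, x = Matrix.toLin' ((g : (Mt k)ˣ) : Mt k) - 1}

private theorem Uni_mem {k : ℕ} (G : Subgroup (Mt k)ˣ) {g : (Mt k)ˣ} (hg : g ∈ G) :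
    Matrix.toLin' ((g : (Mt k)ˣ) : Mt k) - 1 ∈ Uni_S G :=
  Submodule.subset_span ⟨g, hg, rfl⟩

private theorem Uni_mul {k : ℕ} (G : Subgroup (Mt k)ˣ) {x y : Module.End ℂ (Fin k → ℂ)}
    (hx : x ∈ Uni_S G) (hy : y ∈ Uni_S G) : x * y ∈ Uni_S G := by
  have hx' : x ∈ Submodule.span ℂ {x | ∃ g ∈ G, x = Matrix.toLin' ((g : (Mt k)ˣ) : Mt k) - 1} := hx
  have hy' : y ∈ Submodule.span ℂ {x | ∃ g ∈ G, x = Matrix.toLin' ((g : (Mt k)ˣ) : Mt k) - 1} := hy
  induction hx' using Submodule.span_induction with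
  | mem x hx1 =>
    obtain ⟨g, hg, rfl⟩ := hx1
    clear hx
    induction hy' using Submodule.span_induction with
    | mem y hy1 =>
      obtain ⟨g', hg', rfl⟩ := hy1
      have e1 : (Matrix.toLin' ((g : (Mt k)ˣ) : Mt k) - 1) *
          (Matrix.toLin' ((g' : (Mt k)ˣ) : Mt k) - 1) =
          (Matrix.toLin' ((g * g' : (Mt k)ˣ) : Mt k) - 1) -
          (Matrix.toLin' ((g : (Mt k)ˣ) : Mt k) - 1) -
          (Matrix.toLin' ((g' : (Mt k)ˣ) : Mt k) - 1) := by
        rw [Units.val_mul, Matrix.toLin'_mul, ← Module.End.mul_eq_comp, sub_mul, mul_sub, one_mul,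
          mul_one]
        abel
      rw [e1]
      exact Submodule.sub_mem _ (Submodule.sub_mem _ (Uni_mem G (G.mul_mem hg hg'))
        (Uni_mem G hg)) (Uni_mem G hg')
    | zero => rw [mul_zero]; exact Submodule.zero_mem _
    | add u v _ _ hu hv =>
      rw [mul_add]
      exact Submodule.add_mem _ (hu ‹_›) (hv ‹_›)
    | smul c u _ hu =>
      rw [mul_smul_comm]
      exact Submodule.smul_mem _ _ (hu ‹_›)
  | zero => rw [zero_mul]; exact Submodule.zero_mem _
  | add u v hu1 hv1 hu hv =>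
    rw [add_mul]
    exact Submodule.add_mem _ (hu hu1) (hv hv1)
  | smul c u hu1 hu =>
    rw [smul_mul_assoc]
    exact Submodule.smul_mem _ _ (hu hu1)

private theorem Uni_tr {k : ℕ} (G : Subgroup (Mt k)ˣ)
    (h : ∀ g ∈ G, IsNilpotent (((g : (Mt k)ˣ) : Mt k) - 1)) {x : Module.End ℂ (Fin k → ℂ)}
    (hx : x ∈ Uni_S G) : LinearMap.trace ℂ _ x = 0 := by
  unfold Uni_S at hx
  induction hx using Submodule.span_induction with
  | mem x hx1 =>
    obtain ⟨g, hg, rfl⟩ := hx1
    have h1 := h g hg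
    have h2 : IsNilpotent (Matrix.toLin' ((g : (Mt k)ˣ) : Mt k) - 1) := by
      have h3 := h1.map (Matrix.toLinAlgEquiv' : Mt k ≃ₐ[ℂ] _)
      rw [map_sub, map_one] at h3
      exact h3
    exact (LinearMap.isNilpotent_trace_of_isNilpotent h2).eq_zero
  | zero => exact map_zero _
  | add u v _ _ hu hv => rw [map_add, hu, hv, add_zero]
  | smul c u _ hu => rw [map_smul, hu, smul_zero]

private theorem Uni_nil {k : ℕ} (G : Subgroup (Mt k)ˣ)
    (h : ∀ g ∈ G, IsNilpotent (((g : (Mt k)ˣ) : Mt k) - 1)) {x : Module.End ℂ (Fin k → ℂ)}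
    (hx : x ∈ Uni_S G) : IsNilpotent x := by
  apply Uni_trace
  have hp : ∀ j : ℕ, x ^ (j + 1) ∈ Uni_S G := by
    intro j
    induction j with
    | zero => simpa using hx
    | succ j ih => rw [pow_succ]; exact Uni_mul G ih hx
  intro j hj
  obtain ⟨i, rfl⟩ : ∃ i, j = i + 1 := ⟨j - 1, by omega⟩
  exact Uni_tr G h (hp i)

/-- a flag on which all `g - 1` act nilpotently -/
private theorem Uni_flag {k : ℕ} (G : Subgroup (Mt k)ˣ)
    (h : ∀ g ∈ G, IsNilpotent (((g : (Mt k)ˣ) : Mt k) - 1)) :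
    ∃ (N : ℕ) (V : ℕ → Submodule ℂ (Fin k → ℂ)), V 0 = ⊤ ∧ V (N + 1) = ⊥ ∧ Antitone V ∧
      ∀ j, ∀ g ∈ G, ∀ v ∈ V j, ((g : (Mt k)ˣ) : Mt k) *ᵥ v - v ∈ V (j + 1) := by
  let L : LieSubalgebra ℂ (Module.End ℂ (Fin k → ℂ)) :=
    { Uni_S G with
      lie_mem' := by
        intro x y hx hy
        show x * y - y * x ∈ Uni_S G
        exact Submodule.sub_mem _ (Uni_mul G hx hy) (Uni_mul G hy hx) }
  have hL : ∀ x, x ∈ L ↔ x ∈ Uni_S G := fun x => Iff.rfl
  have hnil : LieModule.IsNilpotent L (Fin k → ℂ) := by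
    rw [LieModule.isNilpotent_iff_forall' (R := ℂ)]
    intro x
    have hx : (x : Module.End ℂ (Fin k → ℂ)) ∈ Uni_S G := x.2
    have h1 := Uni_nil G h hx
    exact h1
  rw [LieModule.isNilpotent_iff ℂ] at hnil
  obtain ⟨N, hN⟩ := hnil
  refine ⟨N, fun j => (LieModule.lowerCentralSeries ℂ L (Fin k → ℂ) j).toSubmodule, ?_, ?_, ?_, ?_⟩
  · simp
  · have h2 : LieModule.lowerCentralSeries ℂ L (Fin k → ℂ) (N + 1) = ⊥ := by
      rw [eq_bot_iff, ← hN]
      exact LieModule.antitone_lowerCentralSeries ℂ L (Fin k → ℂ) (Nat.le_succ N)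
    show (LieModule.lowerCentralSeries ℂ L (Fin k → ℂ) (N + 1)).toSubmodule = ⊥
    rw [h2]
    simp
  · intro a b hab
    exact LieModule.antitone_lowerCentralSeries ℂ L (Fin k → ℂ) hab
  · intro j g hg v hv
    have hx : Matrix.toLin' ((g : (Mt k)ˣ) : Mt k) - 1 ∈ L := Uni_mem G hg
    have h3 : ⁅(⟨_, hx⟩ : L), v⁆ ∈ LieModule.lowerCentralSeries ℂ L (Fin k → ℂ) (j + 1) := by
      rw [LieModule.lowerCentralSeries_succ]
      exact LieSubmodule.lie_mem_lie (LieSubmodule.mem_top _) hv
    have h4 : ⁅(⟨_, hx⟩ : L), v⁆ = ((g : (Mt k)ˣ) : Mt k) *ᵥ v - v := by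
      show (Matrix.toLin' ((g : (Mt k)ˣ) : Mt k) - 1) v = _
      rw [LinearMap.sub_apply, Matrix.toLin'_apply]
      rfl
    rw [h4] at h3
    exact h3


/-- a basis adapted to the flag -/
private theorem Uni_basis {k : ℕ} (G : Subgroup (Mt k)ˣ)
    (h : ∀ g ∈ G, IsNilpotent (((g : (Mt k)ˣ) : Mt k) - 1)) :
    ∃ b : Fin k → (Fin k → ℂ), LinearIndependent ℂ b ∧
      ∀ g ∈ G, ∀ i, ((g : (Mt k)ˣ) : Mt k) *ᵥ b i - b i ∈
        Submodule.span ℂ (b '' {l | l < i}) := by
  obtain ⟨N, V, hV0, hVN, hanti, hV⟩ := Uni_flag G h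
  have key : ∀ t, t ≤ N + 1 → ∃ (m : ℕ) (b : Fin m → (Fin k → ℂ)), LinearIndependent ℂ b ∧
      Submodule.span ℂ (Set.range b) = V (N + 1 - t) ∧
      ∀ g ∈ G, ∀ i, ((g : (Mt k)ˣ) : Mt k) *ᵥ b i - b i ∈
        Submodule.span ℂ (b '' {l | l < i}) := by
    intro t
    induction t with
    | zero =>
      intro _
      refine ⟨0, Fin.elim0, linearIndependent_empty_type, ?_, fun g _ i => i.elim0⟩
      rw [Nat.sub_zero, hVN]
      simp
    | succ t ih =>
      intro ht
      obtain ⟨m, b, hb1, hb2, hb3⟩ := ih (by omega)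
      obtain ⟨j, hj⟩ : ∃ j, j = N + 1 - (t + 1) := ⟨_, rfl⟩
      have hj1 : N + 1 - t = j + 1 := by omega
      rw [hj1] at hb2
      rw [← hj]
      have hle : V (j + 1) ≤ V j := hanti (Nat.le_succ j)
      obtain ⟨C, hC⟩ := exists_isCompl (V (j + 1))
      obtain ⟨W, hWd⟩ : ∃ W : Submodule ℂ (Fin k → ℂ), W = C ⊓ V j := ⟨_, rfl⟩
      have hW1 : V (j + 1) ⊓ W = ⊥ := by
        rw [hWd, eq_bot_iff, ← hC.inf_eq_bot]
        exact inf_le_inf_left _ inf_le_left
      have hW2 : V (j + 1) ⊔ W = V j := by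
        rw [hWd, ← sup_inf_assoc_of_le C hle, hC.sup_eq_top, top_inf_eq]
      obtain ⟨p, e⟩ : ∃ p : ℕ, Nonempty (Module.Basis (Fin p) ℂ W) :=
        ⟨Module.finrank ℂ W, ⟨Module.finBasis ℂ W⟩⟩
      obtain ⟨e⟩ := e
      obtain ⟨c, hcd⟩ : ∃ c : Fin p → (Fin k → ℂ), c = W.subtype ∘ e := ⟨_, rfl⟩
      have hcV : ∀ i, c i ∈ V j := by
        intro i
        rw [hcd]
        exact (hWd ▸ (e i).2 : ((e i : W) : Fin k → ℂ) ∈ C ⊓ V j).2
      have hspc : Submodule.span ℂ (Set.range c) = W := by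
        rw [hcd, Set.range_comp, Submodule.span_image, e.span_eq, Submodule.map_top,
          Submodule.range_subtype]
      have hc : LinearIndependent ℂ c := by
        rw [hcd]
        exact e.linearIndependent.map' W.subtype (Submodule.ker_subtype W)
      have hdisj : Disjoint (Submodule.span ℂ (Set.range b)) (Submodule.span ℂ (Set.range c)) := by
        rw [hb2, hspc, disjoint_iff]
        exact hW1
      refine ⟨m + p, Fin.append b c, ?_, ?_, ?_⟩
      · have h1 := LinearIndependent.sum_type hb1 hc hdisj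
        have h2 : Fin.append b c = Sum.elim b c ∘ finSumFinEquiv.symm := by
          funext i
          refine Fin.addCases (fun i => ?_) (fun i => ?_) i
          · simp
          · simp
        rw [h2]
        exact h1.comp _ finSumFinEquiv.symm.injective
      · have h1 : Set.range (Fin.append b c) = Set.range b ∪ Set.range c := by
          ext x
          constructor
          · rintro ⟨i, rfl⟩
            refine Fin.addCases (fun i => ?_) (fun i => ?_) i
            · left
              exact ⟨i, by simp⟩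
            · right
              exact ⟨i, by simp⟩
          · rintro (⟨i, rfl⟩ | ⟨i, rfl⟩)
            · exact ⟨Fin.castAdd p i, by simp⟩
            · exact ⟨Fin.natAdd m i, by simp⟩
        rw [h1, Submodule.span_union, hb2, hspc, hW2]
      · intro g hg i
        refine Fin.addCases (fun i => ?_) (fun i => ?_) i
        · rw [Fin.append_left]
          refine Submodule.span_mono ?_ (hb3 g hg i)
          rintro _ ⟨l, hl, rfl⟩
          refine ⟨Fin.castAdd p l, ?_, Fin.append_left _ _ _⟩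
          exact hl
        · rw [Fin.append_right]
          have h1 := hV j g hg (c i) (hcV i)
          rw [← hb2] at h1
          refine Submodule.span_mono ?_ h1
          rintro _ ⟨l, rfl⟩
          refine ⟨Fin.castAdd p l, ?_, Fin.append_left _ _ _⟩
          show Fin.castAdd p l < Fin.natAdd m i
          rw [Fin.lt_def]
          simp
          omega
  obtain ⟨m, b, hb1, hb2, hb3⟩ := key (N + 1) le_rfl
  rw [Nat.sub_self, hV0] at hb2
  have hm : m = k := by
    have h1 := finrank_span_eq_card hb1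
    rw [hb2, finrank_top, Module.finrank_fin_fun, Fintype.card_fin] at h1
    exact h1.symm
  subst hm
  exact ⟨b, hb1, hb3⟩

/-- Kolchin's theorem in matrix form -/
theorem uni_tri {k : ℕ} (G : Subgroup (Mt k)ˣ)
    (h : ∀ g ∈ G, IsNilpotent (((g : (Mt k)ˣ) : Mt k) - 1)) :
    ∃ P : (Mt k)ˣ, ∀ g ∈ G, ∀ i j : Fin k, j ≤ i →
      ((P * g * P⁻¹ : (Mt k)ˣ) : Mt k) i j = if i = j then 1 else 0 := by
  obtain ⟨b, hb, hG⟩ := Uni_basis G h
  obtain ⟨Q, hQ⟩ : ∃ Q : Mt k, Q = Matrix.of fun i l => b l i := ⟨_, rfl⟩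
  have hQu : IsUnit Q := by
    rw [← Matrix.linearIndependent_cols_iff_isUnit]
    have : Q.col = b := by
      funext l
      funext i
      rw [hQ]
      rfl
    rw [this]
    exact hb
  obtain ⟨q, rfl⟩ := hQu
  have hcol : ∀ l, ((q : (Mt k)ˣ) : Mt k) *ᵥ (Pi.single l 1) = b l := by
    intro l
    rw [Matrix.mulVec_single_one]
    funext i
    rw [hQ]
    rfl
  have hinv : ∀ l, ((q⁻¹ : (Mt k)ˣ) : Mt k) *ᵥ b l = Pi.single l 1 := by
    intro l
    rw [← hcol l, Matrix.mulVec_mulVec, Units.inv_mul, Matrix.one_mulVec]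
  refine ⟨q⁻¹, fun g hg i j hij => ?_⟩
  rw [inv_inv]
  have h1 : ∀ s ∈ Submodule.span ℂ (b '' {l | l < j}), (((q⁻¹ : (Mt k)ˣ) : Mt k) *ᵥ s) i = 0 := by
    intro s hs
    induction hs using Submodule.span_induction with
    | mem s hs =>
      obtain ⟨l, hl, rfl⟩ := hs
      rw [hinv, Pi.single_apply, if_neg]
      rintro rfl
      exact absurd hij (not_le.2 hl)
    | zero => rw [Matrix.mulVec_zero]; rfl
    | add u v _ _ hu hv => rw [Matrix.mulVec_add, Pi.add_apply, hu, hv, add_zero]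
    | smul c u _ hu => rw [Matrix.mulVec_smul, Pi.smul_apply, hu, smul_zero]
  have h2 : ((q⁻¹ * g * q : (Mt k)ˣ) : Mt k) i j =
      (((q⁻¹ * g * q : (Mt k)ˣ) : Mt k) *ᵥ (Pi.single j 1)) i := by
    rw [Matrix.mulVec_single_one]
    rfl
  have h3 : ((q⁻¹ * g * q : (Mt k)ˣ) : Mt k) *ᵥ (Pi.single j 1) =
      ((q⁻¹ : (Mt k)ˣ) : Mt k) *ᵥ (((g : (Mt k)ˣ) : Mt k) *ᵥ b j - b j) + Pi.single j 1 := by
    rw [Matrix.mulVec_sub, hinv, sub_add_cancel, Units.val_mul, Units.val_mul,
      ← Matrix.mulVec_mulVec, hcol, ← Matrix.mulVec_mulVec]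
  rw [h2, h3, Pi.add_apply, h1 _ (hG g hg j), zero_add, Pi.single_apply]

/-- the traces of the powers of a matrix determine unipotency -/
theorem uni_of_tr {d : ℕ} (A : Mt d) (h : ∀ j : ℕ, trace (A ^ j) = d) :
    IsNilpotent (A - 1) := by
  have h0 : ∀ p : Polynomial ℂ, trace (Polynomial.aeval A p) = d * p.eval 1 := by
    intro p
    induction p using Polynomial.induction_on' with
    | add p q hp hq => rw [map_add, Matrix.trace_add, hp, hq, Polynomial.eval_add, mul_add]
    | monomial m c =>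
      rw [Polynomial.aeval_monomial, ← Algebra.smul_def, Matrix.trace_smul, h, smul_eq_mul,
        Polynomial.eval_monomial, one_pow, mul_one, mul_comm]
  have h1 : ∀ j : ℕ, 0 < j → trace ((A - 1) ^ j) = 0 := by
    intro j hj
    have h2 := h0 ((Polynomial.X - 1) ^ j)
    rw [map_pow, map_sub, Polynomial.aeval_X, map_one, Polynomial.eval_pow, Polynomial.eval_sub,
      Polynomial.eval_X, Polynomial.eval_one, sub_self, zero_pow hj.ne', mul_zero] at h2
    exact h2
  have h3 : IsNilpotent (Matrix.toLin' (A - 1)) := by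
    apply Uni_trace
    intro j hj
    rw [← Matrix.toLin'_pow, LinearMap.trace_eq_matrix_trace ℂ (Pi.basisFun ℂ (Fin d)),
      LinearMap.toMatrix_eq_toMatrix', LinearMap.toMatrix'_toLin', h1 j hj]
  obtain ⟨e, he⟩ := h3
  refine ⟨e, ?_⟩
  rw [← Matrix.toLin'_pow] at he
  exact Matrix.toLin'.injective (by rw [he, map_zero])

/-- the kernel of the semisimplification, described by traces -/
def kr {F : Type} [Group F] {d : ℕ} (rho : F →* (Mt d)ˣ) : Subgroup F where
  carrier := {w | ∀ u, trace ((rho (w * u) : (Mt d)ˣ) : Mt d) = trace ((rho u : (Mt d)ˣ) : Mt d)}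
  mul_mem' := by
    intro a b ha hb u
    rw [mul_assoc, ha, hb]
  one_mem' := by
    intro u
    rw [one_mul]
  inv_mem' := by
    intro a ha u
    rw [← ha (a⁻¹ * u), mul_inv_cancel_left]

theorem kr_char {F : Type} [Group F] {d : ℕ} (rho : F →* (Mt d)ˣ) (hchr : Chr rho) :
    (kr rho).Characteristic := by
  rw [Subgroup.characteristic_iff_le_comap]
  intro σ w hw
  show ∀ u, trace ((rho (σ w * u) : (Mt d)ˣ) : Mt d) = trace ((rho u : (Mt d)ˣ) : Mt d)
  have htr : ∀ x, trace ((rho (σ x) : (Mt d)ˣ) : Mt d) = trace ((rho x : (Mt d)ˣ) : Mt d) := by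
    intro x
    obtain ⟨g, hg⟩ := hchr σ
    rw [hg x, Units.val_mul, Units.val_mul, Matrix.trace_mul_comm, ← mul_assoc, Units.inv_mul,
      one_mul]
  intro u
  have h1 : σ w * u = σ (w * σ.symm u) := by
    rw [map_mul, MulEquiv.apply_symm_apply]
  rw [h1, htr, hw, ← htr, MulEquiv.apply_symm_apply]

theorem kr_uni {F : Type} [Group F] {d : ℕ} (rho : F →* (Mt d)ˣ) :
    ∀ w ∈ kr rho, IsNilpotent (((rho w : (Mt d)ˣ) : Mt d) - 1) := by
  intro w hw
  apply uni_of_tr
  intro j
  have h1 : w ^ j ∈ kr rho := Subgroup.pow_mem _ hw j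
  have h2 := h1 1
  rw [mul_one, map_one, Units.val_one, Matrix.trace_one, Fintype.card_fin, map_pow,
    Units.val_pow_eq_pow_val] at h2
  exact h2

/-- the image of the semisimplification is finite -/
theorem kr_fin {n d : ℕ} (rho : FreeGroup (Fin n) →* (Mt d)ˣ)
    (hall : ∀ w, ∀ s : ℂ ≃+* ℂ, ∀ z ∈ ((rho w : (Mt d)ˣ) : Mt d).charpoly.roots, ‖s z‖ = 1)
    (hint : ∀ w, ∀ z ∈ ((rho w : (Mt d)ˣ) : Mt d).charpoly.roots, IsIntegral ℤ z) :
    (kr rho).FiniteIndex := by
  have hmo : ∀ w, Mo ((rho w : (Mt d)ˣ) : Mt d) := fun w z hz => hall w (RingEquiv.refl ℂ) z hz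
  obtain ⟨N, k, r, -, hirr, hch, -, -, -⟩ := cst rho hmo
  have hroot : ∀ i g, ∀ z ∈ ((r i g : (Mt (k i))ˣ) : Mt (k i)).charpoly.roots,
      z ∈ ((rho g : (Mt d)ˣ) : Mt d).charpoly.roots := by
    intro i g z hz
    have hne : ((rho g : (Mt d)ˣ) : Mt d).charpoly ≠ 0 := (Matrix.charpoly_monic _).ne_zero
    refine Multiset.mem_of_le (Polynomial.roots.le_of_dvd hne ?_) hz
    rw [hch g]
    exact Finset.dvd_prod_of_mem _ (Finset.mem_univ i)
  have hfin : ∀ i, (Set.range (r i)).Finite := by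
    intro i
    refine fin_img (r i) (hirr i) (fun g => ?_) (fun g s => ?_)
    · rw [Matrix.trace_eq_sum_roots_charpoly]
      exact IsIntegral.multiset_sum fun z hz => hint g z (hroot i g z hz)
    · rw [Matrix.trace_eq_sum_roots_charpoly, map_multiset_sum]
      have hcard : (((r i g : (Mt (k i))ˣ) : Mt (k i)).charpoly.roots).card = k i := by
        rw [IsAlgClosed.card_roots_eq_natDegree, Matrix.charpoly_natDegree_eq_dim,
          Fintype.card_fin]
      have hle : ∀ S : Multiset ℂ, (∀ z ∈ S, ‖s z‖ = 1) → ‖(S.map s).sum‖ ≤ S.card := by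
        intro S
        induction S using Multiset.induction_on with
        | empty => intro _; simp
        | cons a S ih =>
          intro h
          rw [Multiset.map_cons, Multiset.sum_cons, Multiset.card_cons]
          push_cast
          have h1 := h a (Multiset.mem_cons_self a S)
          have h2 := ih fun z hz => h z (Multiset.mem_cons_of_mem hz)
          have h3 := norm_add_le (s a) (S.map s).sum
          linarith
      have h1 := hle _ (fun z hz => hall g s z (hroot i g z hz))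
      rw [hcard] at h1
      exact h1
  have h0 : (⨅ i, (r i).ker).FiniteIndex := by
    refine Subgroup.finiteIndex_iInf fun i => ?_
    have : Finite (r i).range := (hfin i).to_subtype
    infer_instance
  have htr : ∀ g, trace ((rho g : (Mt d)ˣ) : Mt d) =
      ∑ i, trace ((r i g : (Mt (k i))ˣ) : Mt (k i)) := by
    intro g
    rw [Matrix.trace_eq_sum_roots_charpoly, hch g, Polynomial.roots_prod]
    · rw [Multiset.sum_bind]
      refine Finset.sum_congr rfl fun i _ => ?_
      rw [Matrix.trace_eq_sum_roots_charpoly]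
    · exact Finset.prod_ne_zero_iff.2 fun i _ => (Matrix.charpoly_monic _).ne_zero
  have hle : (⨅ i, (r i).ker) ≤ kr rho := by
    intro g hg u
    rw [Subgroup.mem_iInf] at hg
    rw [htr, htr]
    refine Finset.sum_congr rfl fun i _ => ?_
    rw [map_mul, (MonoidHom.mem_ker).1 (hg i), one_mul]
  exact Subgroup.finiteIndex_of_le hle

/-- characteristic representations of free groups of rank at least 3 are simultaneously
unitriangular on a characteristic subgroup of finite index -/
theorem chr_uni {n d : ℕ} (hn : 3 ≤ n) (rho : FreeGroup (Fin n) →* (Mt d)ˣ) (hchr : Chr rho) :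
    ∃ K : Subgroup (FreeGroup (Fin n)), K.FiniteIndex ∧ K.Characteristic ∧
      Group.IsSolvable (K.map rho) ∧
      ∃ P : (Mt d)ˣ, ∀ w ∈ K, ∀ i j : Fin d, j ≤ i →
        ((P * rho w * P⁻¹ : (Mt d)ˣ) : Mt d) i j = if i = j then 1 else 0 := by
  have hvu := typ hn rho hchr
  have huni : ∀ g ∈ (kr rho).map rho, IsNilpotent (((g : (Mt d)ˣ) : Mt d) - 1) := by
    rintro _ ⟨w, hw, rfl⟩
    exact kr_uni rho w hw
  obtain ⟨P, hP⟩ := uni_tri ((kr rho).map rho) huni
  refine ⟨kr rho, kr_fin rho (fun w s z hz => vu_all hn rho hchr hvu w s z hz)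
    (eig_int hn rho hchr hvu), kr_char rho hchr, kolchin _ huni, P, fun w hw i j hij => ?_⟩
  exact hP _ ⟨w, hw, rfl⟩ i j hij

end H36NA
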